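import Pool.Agent.N594.CT.Stm

/-!
# CT/NC: no large independent sets in a good sample
-/

set_option autoImplicit false

open Finset
open scoped Classical

namespace Pool.Agent.N861.CT.NC

open Pool.Agent.N594.CT

theorem upper {V : Type} (H : Finset V → Prop) (l s : ℕ) (S : Fin s → V) (hU : Unif (l + 1) H)
    (hs : 0 < s) (J : Finset (Fin s)) (hJ : Ind (l + 1) H S J) (j : Fin s) (hj : j ∈ J) :
    sdg l H S j ≤ 1 - ((J.card : ℝ) / s) ^ l := by
  have hs0 : (0 : ℝ) < s := by exact_mod_cast hs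
  have h1 : Disjoint (univ.filter fun y : Fin l → Fin s =>
      H (insert (S j) (univ.image fun a => S (y a)))) (Fintype.piFinset (fun _ => J)) := by
    rw [Finset.disjoint_left]
    intro y hy hyJ
    rw [mem_filter] at hy
    rw [Fintype.mem_piFinset] at hyJ
    have e1 : (insert j (univ.image y)).image S = insert (S j) (univ.image fun a => S (y a)) := by
      rw [image_insert, image_image]; rfl
    have e2 : insert j (univ.image y) ⊆ J := by
      intro a ha
      rcases mem_insert.1 ha with rfl | ha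
      · exact hj
      · obtain ⟨b, -, rfl⟩ := mem_image.1 ha
        exact hyJ b
    have h2 := hU _ hy.2
    rw [← e1] at h2
    have h3 : (insert j (univ.image y)).card ≤ l + 1 := by
      refine (card_insert_le _ _).trans ?_
      have := card_image_le (s := (univ : Finset (Fin l))) (f := y)
      rw [card_univ, Fintype.card_fin] at this
      omega
    have h4 := card_image_le (s := insert j (univ.image y)) (f := S)
    have h5 := hy.2
    rw [← e1] at h5
    exact hJ _ e2 (by omega) h5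
  have h2 := card_le_card (subset_univ ((univ.filter fun y : Fin l → Fin s =>
      H (insert (S j) (univ.image fun a => S (y a)))) ∪ (Fintype.piFinset (fun _ => J))))
  rw [card_union_of_disjoint h1, Fintype.card_piFinset_const, card_univ, Fintype.card_fun,
    Fintype.card_fin, Fintype.card_fin] at h2
  have h3 : ((univ.filter fun y : Fin l → Fin s =>
      H (insert (S j) (univ.image fun a => S (y a)))).card : ℝ) + (J.card : ℝ) ^ l ≤ (s : ℝ) ^ l := by
    exact_mod_cast h2
  have hsl : (0 : ℝ) < (s : ℝ) ^ l := by positivity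
  rw [sdg, div_pow, div_le_iff₀ hsl, sub_mul, one_mul, div_mul_cancel₀ _ hsl.ne']
  linarith

theorem dg_nonneg (l : ℕ) {V : Type} [Fintype V] (H : Finset V → Prop) (w : V) :
    0 ≤ dg l H w := by
  rw [dg]; positivity

theorem binom (a δ : ℝ) (ha : 0 ≤ a) (hδ : 0 ≤ δ) (l : ℕ) (hl : 1 ≤ l) :
    a ^ l + a ^ (l - 1) * δ ≤ (a + δ) ^ l := by
  obtain ⟨m, rfl⟩ := Nat.exists_eq_add_of_le' hl
  rw [Nat.add_sub_cancel]
  have h1 : a ^ m ≤ (a + δ) ^ m := pow_le_pow_left₀ ha (by linarith) m
  have h2 : a ^ m * (a + δ) ≤ (a + δ) ^ m * (a + δ) :=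
    mul_le_mul_of_nonneg_right h1 (by linarith)
  rw [pow_succ, pow_succ]
  linarith

theorem main : S_NC := by
  intro V _ _ H l k s S ε δ η hU hl hk hs hε hη hδ hbad hav hsm J hJ
  by_contra hcon
  rw [not_le] at hcon
  have hs0 : (0 : ℝ) < s := by exact_mod_cast hs
  have hk0 : (0 : ℝ) < k := by exact_mod_cast hk
  set x : ℝ := (J.card : ℝ) / s with hx
  have hx1 : 1 / k + δ < x := by rw [hx, lt_div_iff₀ hs0]; exact hcon
  have hJs : (J.card : ℝ) = x * s := by rw [hx, div_mul_cancel₀ _ hs0.ne']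
  -- upper bound
  have h1 : ∑ j ∈ J, sdg l H S j ≤ J.card * (1 - x ^ l) := by
    rw [← nsmul_eq_mul]
    exact sum_le_card_nsmul _ _ _ fun j hj => upper H l s S hU hs J hJ j hj
  -- lower bound
  have h2 : ∑ j ∈ J, dg l H (S j) - η * s ≤ ∑ j ∈ J, sdg l H S j := by
    have h3 : ∑ j ∈ J, |sdg l H S j - dg l H (S j)| ≤ η * s :=
      (sum_le_sum_of_subset_of_nonneg (subset_univ J) fun i _ _ => abs_nonneg _).trans hav
    have h4 : ∑ j ∈ J, (dg l H (S j) - sdg l H S j) ≤ ∑ j ∈ J, |sdg l H S j - dg l H (S j)| :=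
      sum_le_sum fun j _ => by rw [abs_sub_comm]; exact le_abs_self _
    rw [sum_sub_distrib] at h4
    linarith
  set κ : ℝ := kap k (l + 1) with hκ
  have hκ1 : κ = 1 - 1 / (k : ℝ) ^ l := by rw [hκ, kap, Nat.add_sub_cancel]
  have hκ2 : κ ≤ 1 := by
    have : 0 ≤ 1 / (k : ℝ) ^ l := by positivity
    linarith
  have h3 : J.card * (κ - ε) - η * s ≤ ∑ j ∈ J, dg l H (S j) := by
    by_cases hc : κ - ε < 0
    · have h4 : 0 ≤ ∑ j ∈ J, dg l H (S j) := sum_nonneg fun j _ => dg_nonneg l H _
      have h5 : (J.card : ℝ) * (κ - ε) ≤ 0 :=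
        mul_nonpos_of_nonneg_of_nonpos (Nat.cast_nonneg _) hc.le
      have h6 : 0 ≤ η * s := by positivity
      linarith
    · rw [not_lt] at hc
      have h4 : ∑ j ∈ J.filter (fun i => ¬ dg l H (S i) ≤ κ - ε), dg l H (S j) ≤
          ∑ j ∈ J, dg l H (S j) :=
        sum_le_sum_of_subset_of_nonneg (filter_subset _ _) fun i _ _ => dg_nonneg l H _
      have h5 : (J.filter (fun i => ¬ dg l H (S i) ≤ κ - ε)).card * (κ - ε) ≤
          ∑ j ∈ J.filter (fun i => ¬ dg l H (S i) ≤ κ - ε), dg l H (S j) := by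
        rw [← nsmul_eq_mul]
        exact card_nsmul_le_sum _ _ _ fun j hj => (not_le.1 (mem_filter.1 hj).2).le
      have h6 := card_filter_add_card_filter_not (s := J) (fun i => dg l H (S i) ≤ κ - ε)
      have h7 : ((J.filter fun i => dg l H (S i) ≤ κ - ε).card : ℝ) ≤ η * s := by
        refine le_trans ?_ hbad
        exact_mod_cast card_le_card (filter_subset_filter _ (subset_univ J))
      have h8 : ((J.filter fun i => dg l H (S i) ≤ κ - ε).card : ℝ) +
          ((J.filter (fun i => ¬ dg l H (S i) ≤ κ - ε)).card : ℝ) = J.card := by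
        exact_mod_cast h6
      have h9 : ((J.filter fun i => dg l H (S i) ≤ κ - ε).card : ℝ) * (κ - ε) ≤ η * s := by
        refine le_trans (mul_le_of_le_one_right (Nat.cast_nonneg _) (by linarith)) h7
      rw [← h8, add_mul]
      linarith
  have h4 : (J.card : ℝ) * (x ^ l - 1 / (k : ℝ) ^ l - ε) ≤ 2 * η * s := by
    have h5 : (J.card : ℝ) * (κ - ε) - 2 * (η * s) ≤ J.card * (1 - x ^ l) := by linarith
    rw [hκ1] at h5
    nlinarith
  have h5 : x ^ l - 1 / (k : ℝ) ^ l - ε ≤ 2 * k * η := by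
    by_contra hc
    rw [not_le] at hc
    have h6 : 0 ≤ 2 * k * η := by positivity
    have h7 : (s : ℝ) / k < J.card := by
      rw [hJs, div_eq_mul_one_div, mul_comm]
      exact mul_lt_mul_of_pos_right (by linarith) hs0
    have h8 : (s : ℝ) / k * (2 * k * η) ≤ J.card * (2 * k * η) :=
      mul_le_mul_of_nonneg_right h7.le h6
    have h9 : (J.card : ℝ) * (2 * k * η) < J.card * (x ^ l - 1 / (k : ℝ) ^ l - ε) := by
      refine mul_lt_mul_of_pos_left hc (lt_trans ?_ h7)
      positivity
    have h10 : (s : ℝ) / k * (2 * k * η) = 2 * η * s := by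
      field_simp
    linarith
  have h6 : (1 / (k : ℝ)) ^ l + (1 / (k : ℝ)) ^ (l - 1) * δ ≤ x ^ l :=
    (binom (1 / k) δ (by positivity) hδ.le l hl).trans
      (pow_le_pow_left₀ (by positivity) hx1.le l)
  have hkl : (0 : ℝ) < (k : ℝ) ^ (l - 1) := by positivity
  have h7 : ε + 2 * k * η < δ / (k : ℝ) ^ (l - 1) := by
    rw [lt_div_iff₀ hkl]; exact hsm
  rw [one_div_pow, one_div_pow, one_div_mul_eq_div] at h6
  linarith

end Pool.Agent.N861.CT.NC
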